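import Mathlib
import Pool.Agent.N357.Infinite

set_option autoImplicit false

/-!
# MP_cb2a9f_co: admissible systems containing all independence spaces

Negative answer. The direct sums of finitary and cofinitary matroids form an admissible system which
contains all independence spaces; it is moreover closed under isomorphisms and under arbitrary direct
sums. On every infinite set there is a B-matroid which is not in the system.
-/

namespace Pool.Agent.Results.MP_cb2a9f_co.DirectSums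

open Set Matroid Pool.Agent.N357.Infinite

universe u

variable {S : Type u}

/-- `𝓘` is a pre-independence space on `W` -/
structure IsPreInd (W : Set S) (𝓘 : Set (Set S)) : Prop where
  subset_ground : ∀ I ∈ 𝓘, I ⊆ W
  empty : ∅ ∈ 𝓘
  subset : ∀ I ∈ 𝓘, ∀ J ⊆ I, J ∈ 𝓘
  exchange : ∀ I₁ ∈ 𝓘, ∀ I₂ ∈ 𝓘, I₁.Finite → I₂.Finite → I₁.ncard < I₂.ncard →
    ∃ e ∈ I₂ \ I₁, I₁ ∪ {e} ∈ 𝓘

/-- `𝓘` is an independence space on `W` -/
def IsIndSpace (W : Set S) (𝓘 : Set (Set S)) : Prop :=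
  IsPreInd W 𝓘 ∧ ∀ Y ⊆ W, (∀ Z ⊆ Y, Z.Finite → Z ∈ 𝓘) → Y ∈ 𝓘

/-- the maximal members of a family; a basis of `𝓘` is a maximal member of `𝓘` -/
def maxMem (𝓘 : Set (Set S)) : Set (Set S) := {B | B ∈ 𝓘 ∧ ∀ Y ∈ 𝓘, B ⊆ Y → Y = B}

/-- the restriction `𝓘|Z` -/
def restr (𝓘 : Set (Set S)) (Z : Set S) : Set (Set S) := {Y | Y ⊆ Z ∧ Y ∈ 𝓘}

/-- the contraction `𝓘.Z`, computed with the basis `B` of `𝓘|(W \ Z)` -/
def contr (𝓘 : Set (Set S)) (Z B : Set S) : Set (Set S) := {Y | Y ⊆ Z ∧ Y ∪ B ∈ 𝓘}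

/-- the dual of `𝓘` on `W` -/
def dual (W : Set S) (𝓘 : Set (Set S)) : Set (Set S) :=
  {X | X ⊆ W ∧ ∃ B ∈ maxMem 𝓘, B ⊆ W \ X}

/-- `𝓘` is a B-matroid on `W` -/
structure IsBMatroid (W : Set S) (𝓘 : Set (Set S)) : Prop where
  subset_ground : ∀ I ∈ 𝓘, I ⊆ W
  empty : ∅ ∈ 𝓘
  subset : ∀ I ∈ 𝓘, ∀ J ⊆ I, J ∈ 𝓘
  ib1 : ∀ X ⊆ W, ∀ T ∈ 𝓘, T ⊆ X → ∃ B ∈ maxMem (restr 𝓘 X), T ⊆ B
  ib2 : ∀ X ⊆ W, ∀ B₁ ∈ maxMem (restr 𝓘 X), ∀ B₂ ∈ maxMem (restr 𝓘 X), ∀ x ∈ B₁ \ B₂,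
    ∃ y ∈ B₂ \ B₁, (B₁ \ {x}) ∪ {y} ∈ maxMem (restr 𝓘 X)

/-- `D` is an admissible system on the subsets of `S` -/
structure IsAdmissible (D : Set S → Set (Set (Set S))) : Prop where
  preInd : ∀ W, ∀ 𝓘 ∈ D W, IsPreInd W 𝓘
  restr_mem : ∀ W Z, Z ⊆ W → ∀ 𝓘 ∈ D W, restr 𝓘 Z ∈ D Z
  exists_basis : ∀ W Z, Z ⊆ W → ∀ 𝓘 ∈ D W, ∃ B, B ∈ maxMem (restr 𝓘 (W \ Z))
  contr_eq : ∀ W Z, Z ⊆ W → ∀ 𝓘 ∈ D W, ∀ B ∈ maxMem (restr 𝓘 (W \ Z)),
    ∀ B' ∈ maxMem (restr 𝓘 (W \ Z)), contr 𝓘 Z B = contr 𝓘 Z B'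
  contr_mem : ∀ W Z, Z ⊆ W → ∀ 𝓘 ∈ D W, ∀ B ∈ maxMem (restr 𝓘 (W \ Z)),
    contr 𝓘 Z B ∈ D Z
  dual_mem : ∀ W, ∀ 𝓘 ∈ D W, dual W 𝓘 ∈ D W
  dual_dual : ∀ W, ∀ 𝓘 ∈ D W, dual W (dual W 𝓘) = 𝓘

/-- the system is closed under isomorphisms -/
def ClosedUnderIso (D : Set S → Set (Set (Set S))) : Prop :=
  ∀ W, ∀ 𝓘 ∈ D W, ∀ f : S → S, InjOn f W → (fun I => f '' I) '' 𝓘 ∈ D (f '' W)

/-- the system is closed under direct sums of arbitrary families -/
def ClosedUnderSums (D : Set S → Set (Set (Set S))) : Prop :=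
  ∀ P : Set (Set S), P.PairwiseDisjoint id → ∀ F : Set S → Set (Set S), (∀ W ∈ P, F W ∈ D W) →
    {I | I ⊆ ⋃₀ P ∧ ∀ W ∈ P, I ∩ W ∈ F W} ∈ D (⋃₀ P)

/-- the independent sets of a matroid -/
def ind (M : Matroid S) : Set (Set S) := {I | M.Indep I}

theorem maxMem_restr (M : Matroid S) {X : Set S} (hX : X ⊆ M.E) (B : Set S) :
    B ∈ maxMem (restr (ind M) X) ↔ M.IsBasis B X := by
  constructor
  · rintro ⟨⟨h1, h2⟩, h3⟩
    refine ⟨⟨⟨h2, h1⟩, ?_⟩, hX⟩
    intro J hJ hBJ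
    exact (h3 J ⟨hJ.2, hJ.1⟩ hBJ).le
  · intro h
    refine ⟨⟨h.subset, h.indep⟩, ?_⟩
    rintro Y ⟨h1, h2⟩ h3
    exact (h.eq_of_subset_indep h2 h3 h1).symm

theorem maxMem_ind (M : Matroid S) (B : Set S) : B ∈ maxMem (ind M) ↔ M.IsBase B := by
  constructor
  · rintro ⟨h1, h2⟩
    rw [isBase_iff_maximal_indep]
    exact ⟨h1, fun J hJ hBJ => (h2 J hJ hBJ).le⟩
  · intro h
    exact ⟨h.indep, fun Y h1 h2 => (h.eq_of_subset_indep h1 h2).symm⟩

theorem isPreInd_ind (M : Matroid S) : IsPreInd M.E (ind M) where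
  subset_ground := fun I hI => Matroid.Indep.subset_ground hI
  empty := M.empty_indep
  subset := fun I hI J hJ => Matroid.Indep.subset hI hJ
  exchange := by
    intro I₁ h1 I₂ h2 hf1 hf2 hlt
    have hlt' : I₁.encard < I₂.encard := by
      rw [← hf1.cast_ncard_eq, ← hf2.cast_ncard_eq]
      exact_mod_cast hlt
    obtain ⟨e, he, he'⟩ := Matroid.Indep.exists_insert_of_encard_lt h1 h2 hlt'
    refine ⟨e, he, ?_⟩
    rw [union_singleton]
    exact he'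

theorem isBMatroid_ind (M : Matroid S) : IsBMatroid M.E (ind M) where
  subset_ground := fun I hI => Matroid.Indep.subset_ground hI
  empty := M.empty_indep
  subset := fun I hI J hJ => Matroid.Indep.subset hI hJ
  ib1 := by
    intro X hX T hT hTX
    obtain ⟨B, hB, hTB⟩ := Matroid.Indep.subset_isBasis_of_subset hT hTX hX
    exact ⟨B, (maxMem_restr M hX B).2 hB, hTB⟩
  ib2 := by
    intro X hX B₁ h1 B₂ h2 x hx
    rw [maxMem_restr M hX] at h1 h2
    have h1' : (M ↾ X).IsBase B₁ := by rwa [isBase_restrict_iff hX]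
    have h2' : (M ↾ X).IsBase B₂ := by rwa [isBase_restrict_iff hX]
    obtain ⟨y, hy, hy'⟩ := h1'.exchange h2' hx
    refine ⟨y, hy, ?_⟩
    rw [maxMem_restr M hX, union_singleton, ← isBase_restrict_iff hX]
    exact hy'

theorem restr_ind (M : Matroid S) {Z : Set S} : restr (ind M) Z = ind (M ↾ Z) := by
  ext Y
  simp only [restr, ind, mem_ofPred_eq, restrict_indep_iff]
  tauto

theorem contr_ind (M : Matroid S) {Z B : Set S} (hZ : Z ⊆ M.E) (hB : M.IsBasis B (M.E \ Z)) :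
    contr (ind M) Z B = ind (M ／ (M.E \ Z)) := by
  ext Y
  simp only [contr, ind, mem_ofPred_eq, hB.contract_indep_iff]
  constructor
  · rintro ⟨h1, h2⟩
    refine ⟨h2, ?_⟩
    rw [Set.disjoint_left]
    rintro x ⟨-, hx⟩ hxY
    exact hx (h1 hxY)
  · rintro ⟨h1, h2⟩
    refine ⟨?_, h1⟩
    intro x hx
    by_contra hxZ
    exact Set.disjoint_left.1 h2 ⟨h1.subset_ground (Or.inl hx), hxZ⟩ hx

theorem dual_ind (M : Matroid S) : dual M.E (ind M) = ind M✶ := by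
  ext X
  simp only [dual, ind, mem_ofPred_eq, dual_indep_iff_exists']
  constructor
  · rintro ⟨h1, B, hB, h2⟩
    refine ⟨h1, B, (maxMem_ind M B).1 hB, ?_⟩
    rw [Set.disjoint_left]
    exact fun x hx hxB => (h2 hxB).2 hx
  · rintro ⟨h1, B, hB, h2⟩
    refine ⟨h1, B, (maxMem_ind M B).2 hB, ?_⟩
    exact fun x hx => ⟨hB.subset_ground hx, fun hxX => Set.disjoint_left.1 h2 hxX hx⟩

/-- the direct sums of finitary and cofinitary matroids -/
def D (W : Set S) : Set (Set (Set S)) := {𝓘 | ∃ M : Matroid S, M.E = W ∧ Good M ∧ 𝓘 = ind M}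

theorem admissible : IsAdmissible (D (S := S)) where
  preInd := by
    rintro W _ ⟨M, rfl, -, rfl⟩
    exact isPreInd_ind M
  restr_mem := by
    rintro W Z hZ _ ⟨M, rfl, hM, rfl⟩
    exact ⟨M ↾ Z, rfl, hM.restrict hZ, restr_ind M⟩
  exists_basis := by
    rintro W Z _ _ ⟨M, rfl, hM, rfl⟩
    obtain ⟨B, hB⟩ := M.exists_isBasis (M.E \ Z) sdiff_subset
    exact ⟨B, (maxMem_restr M sdiff_subset B).2 hB⟩
  contr_eq := by
    rintro W Z hZ _ ⟨M, rfl, hM, rfl⟩ B hB B' hB'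
    rw [maxMem_restr M sdiff_subset] at hB hB'
    rw [contr_ind M hZ hB, contr_ind M hZ hB']
  contr_mem := by
    rintro W Z hZ _ ⟨M, rfl, hM, rfl⟩ B hB
    rw [maxMem_restr M sdiff_subset] at hB
    rw [contr_ind M hZ hB]
    refine ⟨M ／ (M.E \ Z), ?_, hM.contract _, rfl⟩
    rw [contract_ground, Set.sdiff_sdiff_cancel_left hZ]
  dual_mem := by
    rintro W _ ⟨M, rfl, hM, rfl⟩
    rw [dual_ind]
    exact ⟨M✶, rfl, hM.dual, rfl⟩
  dual_dual := by
    rintro W _ ⟨M, rfl, hM, rfl⟩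
    rw [dual_ind]
    have h1 := dual_ind M✶
    rw [dual_ground] at h1
    rw [h1, Matroid.dual_dual]

theorem indSpace_mem {W : Set S} {𝓘 : Set (Set S)} (h : IsIndSpace W 𝓘) : 𝓘 ∈ D W := by
  obtain ⟨⟨h1, h2, h3, h4⟩, h5⟩ := h
  let I : IndepMatroid S := IndepMatroid.ofFinitaryCardAugment W (fun X => X ∈ 𝓘) h2
    (fun X Y hY hX => h3 Y hY X hX)
    (by
      intro X Y hX hXf hY hYf hlt
      obtain ⟨e, he, he'⟩ := h4 X hX Y hY hXf hYf hlt
      rw [union_singleton] at he'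
      exact ⟨e, he.1, he.2, he'⟩)
    (by
      intro X hX
      refine h5 X ?_ hX
      intro x hx
      exact h1 {x} (hX {x} (by simpa using hx) (finite_singleton x)) rfl)
    (fun X hX => h1 X hX)
  refine ⟨I.matroid, rfl, good_of_finitary ?_, rfl⟩
  exact IndepMatroid.ofFinitaryCardAugment_finitary ..

theorem closedUnderIso : ClosedUnderIso (D (S := S)) := by
  rintro W _ ⟨M, rfl, hM, rfl⟩ f hf
  refine ⟨M.map f hf, rfl, hM.map f hf, ?_⟩
  ext I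
  simp only [ind, mem_ofPred_eq, map_indep_iff, mem_image]
  constructor
  · rintro ⟨J, hJ, rfl⟩
    exact ⟨J, hJ, rfl⟩
  · rintro ⟨J, hJ, rfl⟩
    exact ⟨J, hJ, rfl⟩

theorem closedUnderSums : ClosedUnderSums (D (S := S)) := by
  intro P hP F hF
  have hF' : ∀ W : P, ∃ M : Matroid S, M.E = W.1 ∧ Good M ∧ F W.1 = ind M := fun W => hF W.1 W.2
  choose M hE hgood hind using hF'
  have hdis : Pairwise (Function.onFun Disjoint fun W : P => (M W).E) := by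
    intro V W hVW
    change Disjoint (M V).E (M W).E
    rw [hE, hE]
    exact hP V.2 W.2 (fun h => hVW (Subtype.ext h))
  refine ⟨Matroid.disjointSigma M hdis, ?_, good_sum hgood, ?_⟩
  · rw [disjointSigma_ground_eq, sUnion_eq_iUnion]
    exact iUnion_congr fun W => hE W
  · ext I
    simp only [ind, mem_ofPred_eq, disjointSigma_indep_iff]
    constructor
    · rintro ⟨h1, h2⟩
      refine ⟨fun W => ?_, ?_⟩
      · have h3 := h2 W.1 W.2
        rw [hind W] at h3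
        rw [hE]
        exact h3
      · rw [sUnion_eq_iUnion] at h1
        rwa [iUnion_congr fun W => hE W]
    · rintro ⟨h1, h2⟩
      refine ⟨?_, fun W hW => ?_⟩
      · rw [sUnion_eq_iUnion]
        rwa [iUnion_congr fun W => hE W] at h2
      · have h3 := h1 ⟨W, hW⟩
        rw [hE] at h3
        rw [hind ⟨W, hW⟩]
        exact h3

theorem not_all {W : Set S} (hW : W.Infinite) : ∃ 𝓘, IsBMatroid W 𝓘 ∧ 𝓘 ∉ D W := by
  obtain ⟨A, B, rfl, hAB, hc⟩ := hW.exists_union_disjoint_cardinal_eq_of_infinite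
  have hiff : A.Finite ↔ B.Finite := by
    rw [← Set.finite_coe_iff, ← Set.finite_coe_iff]
    obtain ⟨e⟩ := Cardinal.eq.1 hc
    exact e.finite_iff
  have hA : A.Infinite := fun h => hW (h.union (hiff.1 h))
  have hB : B.Infinite := fun h => hW ((hiff.2 h).union h)
  obtain ⟨a, ha⟩ := hA.nonempty
  refine ⟨ind (NAB A B a), isBMatroid_ind (NAB A B a), ?_⟩
  rintro ⟨M, hE, hgood, hM⟩
  apply NAB_not_good ha hAB hA hB
  have h1 : NAB A B a = M := by
    apply ext_indep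
    · exact hE.symm
    · intro I _
      change I ∈ ind (NAB A B a) ↔ I ∈ ind M
      rw [hM]
  rw [h1]
  exact hgood

/-- **Negative answer to Q1, on every infinite set `S`.** There is an admissible system containing
all independence spaces, closed under isomorphisms and under arbitrary direct sums, such that for
every infinite `W ⊆ S` some B-matroid on `W` is not in the system. -/
theorem result (S : Type u) [Infinite S] : ∃ D : Set S → Set (Set (Set S)), IsAdmissible D ∧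
    (∀ W 𝓘, IsIndSpace W 𝓘 → 𝓘 ∈ D W) ∧ ClosedUnderIso D ∧ ClosedUnderSums D ∧
    ∀ W : Set S, W.Infinite → ∃ 𝓘, IsBMatroid W 𝓘 ∧ 𝓘 ∉ D W :=
  ⟨D, admissible, fun _ _ h => indSpace_mem h, closedUnderIso, closedUnderSums,
    fun _ hW => not_all hW⟩

end Pool.Agent.Results.MP_cb2a9f_co.DirectSums
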